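import Pool.Agent.Results.MP_301213_nt.PatternsWithHoffmanFronts
import Pool.Agent.Results.MP_807c24_nt.BadHyperplanes
import Pool.Agent.Results.MP_807c24_nt.CommonFactors

/-!
# MP_301213_nt: Hoffman's basis conjecture and patterns at integers with large common factors with the values of arithmetic
# functions

A pattern in `k` variables is a list of letters `b + u_1 s_1 + ... + u_k s_k` with natural numbers `b`, `u_j`; at a tuple `s`
of natural numbers it gives an index. Its constant part is the list of its first letters up to the first letter that is not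
constant, for example `(2, 3)` for `ζ(2, 3, s_1, 1, s_1 + s_2)`; a pattern may be constant, such as a word in `2`, `3`.

Let `F_1, …, F_k` be positive multiplicative functions of at most polynomial growth such that `F_i p ≤ M p` for the large
primes `p`, with different values at different large primes; for example Euler's function, the sum of the divisors, or the
identity. Let `b < 1`, `0 ≤ c < 2 b - 1`, `θ ≥ 0` and `ρ ≤ 1` with `k (1 - ρ + θ) < 1`. The patterns `w_1, ..., w_r` are
independent at common factors if for all such `F`, `b`, `c`, `θ`, `ρ` and all `κ`, `C`, for all large `N`, for all but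
`N^k exp (-(log N)^c)` of the `m ∈ [1, N] ^ k`: for EVERY tuple `v` of integers `v_i ≥ exp ((log N)^b)` with
`gcd(v_i, F_i(m_i)) ≥ v_i^ρ` and ALL tuples `s` with `|s_i - v_i| ≤ v_i ^ θ` in a cone `T ≤ s_i ≤ κ T` the `ζ(w_i(s))` satisfy no
nontrivial linear relation with integer coefficients of absolute value at most `C ^ T`.

Theorem.
(1) For every `n` the `ζ(q)` for the words `q` in `2`, `3` of weight `n` are linearly independent over `ℚ` (this is Q1, by Brown's
theorem) if and only if all finite families of different admissible patterns of one weight in `k ≥ 1` variables whose constant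
parts are words in `2`, `3` are independent at common factors.
(2) The same for all sets `Q` of admissible indices, with the empty one, which contain the initial segments of their elements,
instead of the words in `2`, `3`.
(3) Unconditionally, different patterns of one weight in `k ≥ 1` variables are independent at common factors, if their constant
parts are of the form `(2, ..., 2)` or `(2, ..., 2, 3)`; or if there is a set `Q` as in (2) with at most one index of each weight
which contains their constant parts.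
The tuples `v` include all tuples of large divisors `v_i` of the `F_i(m_i)` and their multiples by small integers; for Euler's
function, the tuples of the orders of elements of the groups of units modulo the `m_i`.

Proof. The tuples with a relation lie on few hyperplanes (`PatternsWithHoffmanFronts`), so there are few of them in boxes, and
the engine `Pool.Agent.U536.CF` of helper536 applies (few values of a multiplicative function have a large common factor with the
elements of a sparse set), in the form of `MP_807c24_nt.CommonFactors.near_of_few`. Conversely, with the identity for `F` and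
`v = s = m` one of the numbers `m ∈ (N / 2, N]` is good, and one good argument is enough.
-/

set_option autoImplicit false

namespace Pool.Agent.Results.MP_301213_nt.CommonFactors

open Pool.Agent.N733.TG (LM lm_totient lm_sigma)
open Pool.Agent.U536.CF (Common common_of_dvd common_order)
open Pool.Agent.Results.MP_301213_nt.PatternsWithHoffmanFronts (mzv Letter index AdmissiblePattern constantPart FrontSet
  HasVariable Independent OffHyperplanes SameWeight Hoffman hoffman_front part2)
open Pool.Agent.Results.MP_807c24_nt.BadHyperplanes (OnFewHyperplanes)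
open Pool.Agent.Results.MP_807c24_nt.CommonFactors (FewNear near_of_few)

/-- Independence at common factors: for all functions `F_i` with `LM` and all `θ`, `ρ`, `b`, `c` in the given range, for all large
`N`, for all but `N^k exp (-(log N)^c)` of the `m ∈ [1, N] ^ k`, for EVERY tuple `v` with `Common (F_i) b ρ N m_i v_i` and all `s`
with `|s_i - v_i| ≤ v_i ^ θ` and `T ≤ s_i ≤ κ T`, `T ≥ 1`, the values of the patterns at `s` satisfy no nontrivial linear relation
with integer coefficients of absolute value at most `C ^ T`. -/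
def AtCommonFactors {k r : ℕ} (w : Fin r → List (Letter k)) : Prop :=
  ∀ (κ : ℕ) (C : ℝ) (F : Fin k → ℕ → ℕ), (∀ i, LM (F i)) → ∀ θ ρ b c : ℝ, 0 ≤ θ → ρ ≤ 1 → k * (1 - ρ + θ) < 1 →
    b < 1 → 0 ≤ c → c < 2 * b - 1 → FewNear κ C F θ ρ b c fun H s => ¬ Independent w H s

theorem near {k r : ℕ} (hk : 1 ≤ k) (w : Fin r → List (Letter k)) (h : OffHyperplanes w (Independent w)) :
    AtCommonFactors w := by
  intro κ C F hF θ ρ b c hθ hρ hk1 hb hc hcb
  have h1 : OnFewHyperplanes w (2 * κ) (fun H s => ¬ Independent w H s) := h (2 * κ)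
  exact near_of_few hk κ C hF hθ hρ hk1 hb hc hcb
    (fun H H' s hH h2 h3 => h2 fun c hc h4 => h3 c (fun i => (hc i).trans hH) h4) h1.few

theorem lm_id : LM fun m => m where
  mul := fun _ _ _ => rfl
  pos := fun _ h => h
  growth := ⟨1, 1, fun m _ => by rw [pow_one, one_mul]⟩
  prime := ⟨0, 1, fun p _ _ => ⟨by rw [one_mul], fun _ _ _ h => h⟩⟩

theorem exists_scale (N₀ : ℕ) : ∃ M : ℕ, N₀ ≤ 2 * M ∧ 2 ≤ M ∧
    Real.exp (Real.log ((2 * M : ℕ) : ℝ) ^ (3 / 4 : ℝ)) ≤ (M : ℝ) := by
  obtain ⟨M, hM⟩ : ∃ M : ℕ, M = N₀ + 43046721 := ⟨_, rfl⟩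
  refine ⟨M, by omega, by omega, ?_⟩
  have hM3 : (3 : ℝ) ^ (16 : ℕ) ≤ (M : ℝ) := by
    rw [hM, Nat.cast_add]
    have := Nat.cast_nonneg (α := ℝ) N₀
    norm_num
  have hMpos : (0 : ℝ) < M := lt_of_lt_of_le (by positivity) hM3
  have hlog3 : (1 : ℝ) ≤ Real.log 3 := by
    rw [Real.le_log_iff_exp_le (by norm_num)]
    have := Real.exp_one_lt_d9
    linarith
  have hlogM : (16 : ℝ) ≤ Real.log M := by
    have h1 := Real.log_le_log (by positivity) hM3
    rw [Real.log_pow] at h1
    push_cast at h1
    linarith
  have hlog2 : Real.log 2 ≤ 1 := by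
    have := Real.log_two_lt_d9
    linarith
  have hL : Real.log ((2 * M : ℕ) : ℝ) = Real.log 2 + Real.log M := by
    push_cast
    rw [Real.log_mul (by norm_num) hMpos.ne']
  have hlog20 : 0 ≤ Real.log 2 := Real.log_nonneg (by norm_num)
  set L := Real.log ((2 * M : ℕ) : ℝ) with hLdef
  have hL16 : 16 ≤ L := by linarith
  have hL0 : 0 < L := by linarith
  have h2 : (2 : ℝ) ≤ L ^ (1 / 4 : ℝ) := by
    have h3 : (16 : ℝ) ^ (1 / 4 : ℝ) = 2 := by
      rw [show (16 : ℝ) = 2 ^ (4 : ℝ) by norm_num, ← Real.rpow_mul (by norm_num)]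
      norm_num
    rw [← h3]
    exact Real.rpow_le_rpow (by norm_num) hL16 (by norm_num)
  have h4 : L ^ (3 / 4 : ℝ) * L ^ (1 / 4 : ℝ) = L := by
    rw [← Real.rpow_add hL0]
    norm_num
  have h5 : 0 ≤ L ^ (3 / 4 : ℝ) := Real.rpow_nonneg hL0.le _
  have h6 : L ^ (3 / 4 : ℝ) ≤ Real.log M := by nlinarith
  rw [← Real.le_log_iff_exp_le hMpos]
  exact h6

/-- one good argument -/
theorem one_good {r : ℕ} (w : Fin r → List (Letter 1)) (h : AtCommonFactors w) (B : ℝ) :
    ∃ s : Fin 1 → ℕ, 2 ≤ s 0 ∧ Independent w B s := by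
  obtain ⟨N₀, hN₀⟩ := h 1 (max B 1) (fun _ m => m) (fun _ => lm_id) 0 1 (3 / 4) 0 le_rfl le_rfl (by norm_num)
    (by norm_num) le_rfl (by norm_num)
  obtain ⟨M, hM1, hM2, hM3⟩ := exists_scale N₀
  by_contra hcon
  push Not at hcon
  have h1 := hN₀ (2 * M) hM1
  set S := {m : Fin 1 → ℕ | (∀ i, 1 ≤ m i ∧ m i ≤ 2 * M) ∧ ∃ v : Fin 1 → ℕ,
      (∀ i, Common (fun m => m) (3 / 4) 1 (2 * M) (m i) (v i)) ∧
      ∃ (s : Fin 1 → ℕ) (T : ℕ), 1 ≤ T ∧ (∀ i, T ≤ s i ∧ s i ≤ 1 * T) ∧ (∀ i, |(s i : ℝ) - v i| ≤ (v i : ℝ) ^ (0 : ℝ)) ∧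
      ¬ Independent w (max B 1 ^ T) s} with hS
  have hfin : S.Finite := by
    refine (Set.Finite.pi' (t := fun _ : Fin 1 => Set.Icc 1 (2 * M)) fun _ => Set.finite_Icc _ _).subset ?_
    intro m hm j
    exact hm.1 j
  let φ : ℕ → Fin 1 → ℕ := fun i _ => i
  have hφ : Function.Injective φ := fun i j hij => congrFun hij 0
  have h2 : φ '' ((Finset.Ioc M (2 * M) : Finset ℕ) : Set ℕ) ⊆ S := by
    rintro m ⟨i, hi, rfl⟩
    rw [Finset.mem_coe, Finset.mem_Ioc] at hi
    refine ⟨fun _ => ⟨by simp only [φ]; omega, hi.2⟩, φ i, fun _ => ?_, φ i, i, by omega, fun _ => ?_, fun _ => ?_, ?_⟩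
    · refine common_of_dvd le_rfl (hM3.trans ?_) (dvd_refl _)
      exact_mod_cast hi.1.le
    · simp only [φ]
      omega
    · simp only [φ, sub_self, abs_zero]
      exact Real.rpow_nonneg (Nat.cast_nonneg _) _
    · intro h3
      refine hcon (φ i) (by simp only [φ]; omega) fun c hc h4 => h3 c (fun j => (hc j).trans ?_) h4
      calc B ≤ max B 1 := le_max_left _ _
        _ = max B 1 ^ 1 := (pow_one _).symm
        _ ≤ max B 1 ^ i := pow_le_pow_right₀ (le_max_right _ _) (by omega)
  have h3 := Set.ncard_le_ncard h2 hfin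
  rw [Set.ncard_image_of_injective _ hφ, Set.ncard_coe_finset, Nat.card_Ioc] at h3
  have h4 : (M : ℝ) ≤ (S.ncard : ℝ) := by
    have : M ≤ S.ncard := by omega
    exact_mod_cast this
  have h5 : (S.ncard : ℝ) ≤ ((2 * M : ℕ) : ℝ) ^ 1 * Real.exp (-(Real.log ((2 * M : ℕ) : ℝ) ^ (0 : ℝ))) := h1
  rw [pow_one, Real.rpow_zero, Real.exp_neg] at h5
  have h6 : (2 : ℝ) < Real.exp 1 := by
    have := Real.exp_one_gt_d9
    linarith
  have h7 : (0 : ℝ) < M := by
    have : 0 < M := by omega
    exact_mod_cast this
  have h8 : ((2 * M : ℕ) : ℝ) * (Real.exp 1)⁻¹ < M := by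
    push_cast
    rw [← div_eq_mul_inv, div_lt_iff₀ (by linarith)]
    nlinarith
  linarith

theorem iff_of (Q : Set (List ℕ)) (hQ : FrontSet Q) :
    (∀ n, LinearIndependent ℚ fun q : {q : List ℕ // q ∈ Q ∧ q.sum = n} => mzv q.1) ↔
    ∀ (k r : ℕ) (w : Fin r → List (Letter k)), 1 ≤ k → Function.Injective w → SameWeight w →
      (∀ i, AdmissiblePattern (w i) ∧ constantPart (w i) ∈ Q) → AtCommonFactors w := by
  constructor
  · intro h k r w hk hinj hwt hw
    have h1 : ∀ (k r : ℕ) (w : Fin r → List (Letter k)), Function.Injective w → SameWeight w →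
      (∀ i, AdmissiblePattern (w i) ∧ constantPart (w i) ∈ Q) → OffHyperplanes w (Independent w) :=
      ((part2 Q hQ).out 0 1).1 h
    exact near hk w (h1 k r w hinj hwt hw)
  · intro h
    have h1 : ∀ (r : ℕ) (w : Fin r → List (Letter 1)), Function.Injective w → SameWeight w →
        (∀ i, AdmissiblePattern (w i) ∧ constantPart (w i) ∈ Q ∧ HasVariable (w i)) →
        ∀ B : ℝ, ∃ s : Fin 1 → ℕ, 2 ≤ s 0 ∧ Independent w B s := fun r w hinj hwt hw B =>
      one_good w (h 1 r w le_rfl hinj hwt fun i => ⟨(hw i).1, (hw i).2.1⟩) B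
    exact ((part2 Q hQ).out 3 0).1 h1

/-- **Theorem.** (1) The words in `2`, `3` of each weight have linearly independent values if and only if all families of different
admissible patterns of one weight in `k ≥ 1` variables whose constant parts are words in `2`, `3` are independent at common factors.
(2) The same for other sets of constant parts. (3) Unconditional cases. (4) Euler's function, the sum of the divisors and the
identity are allowed; large divisors, and large orders of units, have large common factors. -/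
theorem result :
    -- (1) the words in `2`, `3`
    ((∀ n, LinearIndependent ℚ fun q : {q : List ℕ // q ∈ Hoffman ∧ q.sum = n} => mzv q.1) ↔
      ∀ (k r : ℕ) (w : Fin r → List (Letter k)), 1 ≤ k → Function.Injective w → SameWeight w →
        (∀ i, AdmissiblePattern (w i) ∧ constantPart (w i) ∈ Hoffman) → AtCommonFactors w) ∧
    -- (2) other sets of constant parts
    (∀ Q : Set (List ℕ), FrontSet Q → ((∀ n, LinearIndependent ℚ fun q : {q : List ℕ // q ∈ Q ∧ q.sum = n} => mzv q.1) ↔
      ∀ (k r : ℕ) (w : Fin r → List (Letter k)), 1 ≤ k → Function.Injective w → SameWeight w →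
        (∀ i, AdmissiblePattern (w i) ∧ constantPart (w i) ∈ Q) → AtCommonFactors w)) ∧
    -- (3) unconditional cases
    (∀ (k r : ℕ) (w : Fin r → List (Letter k)), 1 ≤ k → Function.Injective w → SameWeight w →
      (∀ i, AdmissiblePattern (w i) ∧
        ∃ n : ℕ, constantPart (w i) = List.replicate n 2 ∨ constantPart (w i) = List.replicate n 2 ++ [3]) →
      AtCommonFactors w) ∧
    (∀ Q : Set (List ℕ), FrontSet Q → (∀ q ∈ Q, ∀ q' ∈ Q, q.sum = q'.sum → q = q') →
      ∀ (k r : ℕ) (w : Fin r → List (Letter k)), 1 ≤ k → Function.Injective w → SameWeight w →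
        (∀ i, AdmissiblePattern (w i) ∧ constantPart (w i) ∈ Q) → AtCommonFactors w) ∧
    -- (4) examples
    (LM Nat.totient ∧ LM (fun m => ∑ d ∈ m.divisors, d) ∧ LM fun m => m) ∧
    (∀ (f : ℕ → ℕ) (b ρ : ℝ) (N m v : ℕ), ρ ≤ 1 → Real.exp (Real.log N ^ b) ≤ (v : ℝ) → v ∣ f m → Common f b ρ N m v) ∧
    ∀ (b ρ : ℝ) (N m : ℕ), ρ ≤ 1 → ∀ x : (ZMod m)ˣ, Real.exp (Real.log N ^ b) ≤ (orderOf x : ℝ) →
      Common Nat.totient b ρ N m (orderOf x) := by
  refine ⟨iff_of _ hoffman_front, iff_of, ?_, ?_, ⟨lm_totient, lm_sigma, lm_id⟩,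
    fun f b ρ N m v hρ hv hd => common_of_dvd hρ hv hd, fun b ρ N m hρ x hx => common_order hρ x hx⟩
  · intro k r w hk hinj hwt hw
    exact near hk w (PatternsWithHoffmanFronts.result.2.2.1 k r w hinj hwt hw)
  · intro Q hQ h1 k r w hk hinj hwt hw
    exact near hk w (PatternsWithHoffmanFronts.result.2.2.2.1 Q hQ h1 k r w hinj hwt hw)

end Pool.Agent.Results.MP_301213_nt.CommonFactors
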