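import Mathlib
import Pool.Agent.U623.HF.Main

/-!
# MP_301213_nt: Hoffman words with a common last part have no relations of small height

Let `U` be a finite set of admissible words. The numbers `ζ(u s)`, `u ∈ U`, where the letters of the word `s`
belong to the smallest summation variables, satisfy no linear relation with integer coefficients, not all zero,
of absolute value at most `κ · length s`, where `κ > 0` depends only on `U`; the word `s` is arbitrary. The value
of such a linear form is even at least `κ ζ(s')` in absolute value, where `s'` is `s` with the first letter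
increased by `J = J(U)`. If `U` is the set of the words of weight `W` in the letters `2`, `3` and `s` is a word in
`2`, `3`, the `ζ(u s)` are Hoffman elements of weight `W + wt s`, and Hoffman's conjecture says that they satisfy
no relation at all. So for fixed `W` and fixed height there is no such relation as soon as the weight is large.

The starting result `CommonPrefix` treats words with a common first part (largest variables); there the smallest
values of the truncated sums decide. Here the proof is different. `ζ(u s)` is the sum of the tails `T_u(m)` (the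
sums of `u` over variables `> m`) with nonnegative weights which depend on `s` and vanish for `m < length s`. The
tails have asymptotic expansions in `1 / m` with rational coefficients. The new point is that the tails are
linearly independent over the rational functions of `m`, even modulo functions which decrease faster than all
powers of `m` (difference algebra: a rational function `f` for which `f (m - 1) - f m` is a combination of the
`m ^ (-a)`, `a ≥ 1`, exists only for the zero combination). So the first nonzero coefficient of the expansion
of a combination has a bounded place and a bounded denominator, and all the weights with `m ≥ length s` contribute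
with the same sign.
-/

set_option autoImplicit false

namespace Pool.Agent.Results.MP_301213_nt.CommonLastPart

/-- the multiple zeta value of the list `l`, the first entry belongs to the largest summation variable, in the
words of `S16469` -/
noncomputable def mzv (l : List ℕ) : ℝ :=
  ∑' m : {m : Fin l.length → ℕ // StrictAnti m ∧ ∀ i, 0 < m i}, ∏ i, ((m.1 i : ℝ) ^ (l.get i))⁻¹

/-- the letters are positive and the first letter (if there is one) is at least two -/
def Admissible (u : List ℕ) : Prop := (∀ x ∈ u, 1 ≤ x) ∧ ∀ x ∈ u.head?, 2 ≤ x

lemma adm_iff {u : List ℕ} (h : Admissible u) : Pool.Agent.H447R2.MZ.Adm u := by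
  refine ⟨h.1, fun a t hu => h.2 a ?_⟩
  rw [hu]
  rfl

lemma mzv_eq {l : List ℕ} (hl : Pool.Agent.H447R2.MZ.Adm l) : mzv l = Pool.Agent.H447R2.MZ.val l := by
  have h1 := Pool.Agent.H447R2.MZ.hasSum_val l.length l.get (by rw [List.ofFn_get]; exact hl)
  rw [List.ofFn_get] at h1
  exact h1.tsum_eq

lemma adm_app {u : List ℕ} (hu : Admissible u) {a : ℕ} {s : List ℕ} (ha : 1 ≤ a) (hs : ∀ x ∈ s, 1 ≤ x)
    (h0 : u = [] → 2 ≤ a) : Pool.Agent.H447R2.MZ.Adm (u ++ a :: s) := by
  refine ⟨fun x hx => ?_, fun b t hb => ?_⟩
  · rw [List.mem_append, List.mem_cons] at hx
    rcases hx with hx | rfl | hx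
    · exact hu.1 x hx
    · exact ha
    · exact hs x hx
  · cases u with
    | nil =>
      rw [List.nil_append, List.cons.injEq] at hb
      rw [← hb.1]
      exact h0 rfl
    | cons c u =>
      rw [List.cons_append, List.cons.injEq] at hb
      rw [← hb.1]
      exact hu.2 c rfl

/-- **Theorem.** For every finite set `U` of admissible words there are `κ > 0` and `J ≥ 1` such that for all words
`a s` in positive integers (with `a ≥ 2` if the empty word is in `U`) and all integers `c_u`, `u ∈ U`, not all zero,
of absolute value at most `κ · length (a s)`: `|∑ c_u ζ(u a s)| ≥ κ ζ(a + J, s) > 0`. In particular the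
numbers `ζ(u a s)`, `u ∈ U`, satisfy no nontrivial linear relation with integer coefficients of absolute value at
most `κ · length (a s)`. -/
theorem result (U : Finset (List ℕ)) (hU : ∀ u ∈ U, Admissible u) :
    ∃ κ : ℝ, 0 < κ ∧ ∃ J : ℕ, 1 ≤ J ∧ ∀ (a : ℕ) (s : List ℕ), 1 ≤ a → (∀ x ∈ s, 1 ≤ x) →
      (([] : List ℕ) ∈ U → 2 ≤ a) → ∀ c : List ℕ → ℤ,
      (∀ u ∈ U, |(c u : ℝ)| ≤ κ * (a :: s).length) → (∃ u ∈ U, c u ≠ 0) →
        0 < mzv ((a + J) :: s) ∧
          κ * mzv ((a + J) :: s) ≤ |∑ u ∈ U, (c u : ℝ) * mzv (u ++ a :: s)| := by
  obtain ⟨κ, hκ, J, hJ, h⟩ := Pool.Agent.U623.HF.main U fun u hu => adm_iff (hU u hu)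
  refine ⟨κ, hκ, J, hJ, fun a s ha hs h0 c hc hne => ?_⟩
  have hadm : ∀ u ∈ U, Pool.Agent.H447R2.MZ.Adm (u ++ a :: s) := fun u hu =>
    adm_app (hU u hu) ha hs fun h => h0 (h ▸ hu)
  have hadm' : Pool.Agent.H447R2.MZ.Adm ((a + J) :: s) := by
    refine ⟨fun x hx => ?_, fun b t hb => ?_⟩
    · rw [List.mem_cons] at hx
      rcases hx with rfl | hx
      · omega
      · exact hs x hx
    · rw [List.cons.injEq] at hb
      omega
  obtain ⟨h1, h2⟩ := h a s ha hs hadm c (fun u hu => by
    have := hc u hu
    rw [List.length_cons] at this
    push_cast at this
    exact this) hne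
  rw [mzv_eq hadm']
  refine ⟨h1, h2.trans (le_of_eq ?_)⟩
  congr 1
  refine Finset.sum_congr rfl fun u hu => ?_
  rw [mzv_eq (hadm u hu)]

end Pool.Agent.Results.MP_301213_nt.CommonLastPart
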