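import Pool.Agent.U553.HY.Dims

/-!
# MP_301213_nt: Hoffman's basis conjecture and patterns of one weight whose constant first letters are `2`
# and `3`

A pattern in `k` variables is a list of letters `b + u_1 s_1 + ... + u_k s_k` with natural numbers `b`, `u_j`; at a tuple `s`
of natural numbers it gives an index. Its constant part is the list of its first letters up to the first letter that is not
constant, for example `(2, 3)` for `ζ(2, 3, s_1, 1, s_1 + s_2)`. The patterns `w_1, ..., w_r` are independent off few hyperplanes
if for every `κ` there is `K` such that for all `C` and all large `N` the following tuples lie on at most `K` hyperplanes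
`∑ b_j s_j = c` with integers `c` and `b_j`, not all zero, `|b_j| ≤ K`: the tuples `s`, `2 ≤ s_j ≤ κ N`, for which in each of the
patterns the first letter which is not constant is at least `N`, and for which the `ζ(w_i(s))` satisfy a nontrivial linear
relation with integer coefficients of absolute value at most `C ^ N`. The letters after the first one may be small. We
consider families of different patterns which have the same weight at all tuples.

Theorem.
(1) The following are equivalent: (a) for every `n` the `ζ(q)` for the words `q` in `2`, `3` of weight `n` are linearly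
independent over `ℚ` (this is Q1, by Brown's theorem); (b) all finite families of different
admissible patterns of one weight whose constant parts are words in `2`, `3` are independent off few hyperplanes; (c) for
these families and all dispersed sequences `F(n)` of tuples (such as the values of real polynomials of which no nontrivial
integer combination is constant) at most `K (W + 1)` numbers `n` have an exceptional tuple `s`, `|s_j - F_j(n)| ≤ W`, of the
scale `N`; (d) for all finite families of different admissible patterns of one weight in one variable, which contain the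
variable, with words in `2`, `3` as constant parts, and for all `B` there is ONE `s ≥ 2` such that there is no nontrivial
relation with coefficients at most `B`.
(2) The same for all sets `Q` of admissible indices, with the empty one, which contain the initial segments of their elements,
instead of the words in `2`, `3`.
(3) 
Unconditionally, different patterns of one weight are independent off few hyperplanes, if their constant parts are of
the form `(2, ..., 2)` or `(2, ..., 2, 3)`; or if there is a set `Q` as in (2) with at most one index of each weight which contains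
their constant parts.

Proof: `Pool.Agent.U553.HY` (with `Pool.Agent.X90.DC` and `Pool.Agent.N665.LP` of the starting library, the subspace theorem)
splits the relations into relations of the constant parts, off few hyperplanes; conversely, a relation between the `ζ(q)` is
multiplied by `ζ(s)`. The first argument belongs to the largest summation variable.
-/

set_option autoImplicit false

namespace Pool.Agent.Results.MP_301213_nt.PatternsWithHoffmanFronts

open Pool.Agent.U553.HY (Range OnHyperplanes Dispersed OffH AlongD NoRel coreW off_hom)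

/-- `trunc [s_1, ..., s_r] m` is the sum of `∏ n_i ^ (-s_i)` over `m > n_1 > ... > n_r ≥ 1` -/
noncomputable def trunc : List ℕ → ℕ → ℝ
  | [], _ => 1
  | s :: l, m => ∑ j ∈ Finset.Ico 1 m, trunc l j / (j : ℝ) ^ s

/-- the multiple zeta value `ζ(s_1, ..., s_r)`, the sum of `∏ n_i ^ (-s_i)` over
`n_1 > ... > n_r ≥ 1`; `ζ() = 1` -/
noncomputable def mzv : List ℕ → ℝ
  | [] => 1
  | s :: l => ∑' m : ℕ, trunc l (m + 1) / ((m + 1 : ℕ) : ℝ) ^ s

/-- admissible indices: the empty index and `(s_1, ..., s_r)` with `s_1 ≥ 2` and all `s_i ≥ 1` -/
def Admissible : List ℕ → Prop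
  | [] => True
  | s :: l => 2 ≤ s ∧ ∀ t ∈ l, 1 ≤ t

/-- the letter `(b, u)` stands for `b + ∑ u_j s_j` -/
abbrev Letter (k : ℕ) : Type := ℕ × (Fin k → ℕ)

/-- the index given by a pattern at the tuple `s` -/
def index {k : ℕ} (s : Fin k → ℕ) (w : List (Letter k)) : List ℕ :=
  w.map fun u => u.1 + ∑ j, u.2 j * s j

/-- constant letters are positive, and the first letter is at least two if it is constant -/
def AdmissiblePattern {k : ℕ} (w : List (Letter k)) : Prop :=
  (∀ u ∈ w.head?, u.2 ≠ 0 ∨ 2 ≤ u.1) ∧ ∀ u ∈ w, u.2 ≠ 0 ∨ 1 ≤ u.1

open Classical in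
/-- the constant letters in front of the first letter which is not constant -/
def constantPart {k : ℕ} : List (Letter k) → List ℕ
  | [] => []
  | u :: w => if u.2 = 0 then u.1 :: constantPart w else []

/-- admissible indices, among them the empty index, with their initial segments -/
def FrontSet (Q : Set (List ℕ)) : Prop :=
  [] ∈ Q ∧ (∀ q ∈ Q, Admissible q) ∧ ∀ q ∈ Q, ∀ q', q' <+: q → q' ∈ Q

/-- some letter is not constant -/
def HasVariable {k : ℕ} (w : List (Letter k)) : Prop := ∃ u ∈ w, u.2 ≠ 0

/-- there is no nontrivial linear relation between the values of the patterns at `s` with integer coefficients of absolute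
value at most `B` -/
def Independent {k r : ℕ} (w : Fin r → List (Letter k)) (B : ℝ) (s : Fin k → ℕ) : Prop :=
  ∀ c : Fin r → ℤ, (∀ i, |(c i : ℝ)| ≤ B) → ∑ i, (c i : ℝ) * mzv (index s (w i)) = 0 → c = 0

/-- For all `κ` there is `K` such that for all `C` and all sufficiently large `N` the tuples `s` with `2 ≤ s_j ≤ κ N`, for
which the first letters of the patterns `w_i` which are not constant are at least `N`, and for which `P (C ^ N) s` fails, lie
on at most `K` hyperplanes `∑ b_j s_j = c` with integers `c` and `b_j`, not all zero, `|b_j| ≤ K`. -/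
def OffHyperplanes {k r : ℕ} (w : Fin r → List (Letter k)) (P : ℝ → (Fin k → ℕ) → Prop) : Prop :=
  ∀ κ : ℕ, ∃ K : ℕ, ∀ C : ℝ, ∃ N₀ : ℕ, ∀ N : ℕ, N₀ ≤ N →
    OnHyperplanes K {s : Fin k → ℕ | s ∈ Range w κ N ∧ ¬ P (C ^ N) s}

/-- For all `κ` and all dispersed families `F` there is `K` such that for all `C`, all sufficiently large `N` and all `W` there
are at most `K (W + 1)` numbers `n` for which there is a tuple `s` with `|s_j - F_j(n)| ≤ W` and `2 ≤ s_j ≤ κ N`, such that the
first letters of the patterns `w_i` which are not constant are at least `N`, and such that `P (C ^ N) s` fails. -/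
def AlongDispersed {k r : ℕ} (w : Fin r → List (Letter k)) (P : ℝ → (Fin k → ℕ) → Prop) : Prop :=
  ∀ (κ : ℕ) (F : Fin k → ℕ → ℝ), Dispersed F → ∃ K : ℕ, ∀ C : ℝ, ∃ N₀ : ℕ, ∀ N : ℕ, N₀ ≤ N → ∀ W : ℕ,
    {n : ℕ | ∃ s ∈ Range w κ N, (∀ j, |(s j : ℝ) - F j n| ≤ W) ∧ ¬ P (C ^ N) s}.encard ≤ (K * (W + 1) : ℕ)

/-- the indices given by the patterns at a tuple have the same weight -/
def SameWeight {k r : ℕ} (w : Fin r → List (Letter k)) : Prop :=
  ∀ i j (s : Fin k → ℕ), (index s (w i)).sum = (index s (w j)).sum

/-- the words in the letters `2`, `3` -/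
def Hoffman : Set (List ℕ) := {q | ∀ a ∈ q, a = 2 ∨ a = 3}

theorem trunc_eq : ∀ l m, trunc l m = Pool.Agent.Y760.ZG.hr l m := by
  intro l
  induction l with
  | nil => intro m; rw [trunc, Pool.Agent.Y760.ZG.hr]
  | cons s l ih =>
    intro m
    rw [trunc, Pool.Agent.Y760.ZG.hr]
    exact Finset.sum_congr rfl fun j _ => by rw [ih]

theorem mzv_eq : ∀ l, mzv l = Pool.Agent.Y760.ZG.mz l := by
  intro l
  cases l with
  | nil => rw [mzv, Pool.Agent.Y760.ZG.mz]
  | cons s l =>
    rw [mzv, Pool.Agent.Y760.ZG.mz]
    exact tsum_congr fun k => by rw [trunc_eq]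

theorem mzv_fun : mzv = Pool.Agent.Y760.ZG.mz := funext mzv_eq

theorem constantPart_eq {k : ℕ} : ∀ w : List (Letter k), constantPart w = Pool.Agent.X90.DC.fpx w := by
  intro w
  induction w with
  | nil => rw [constantPart, Pool.Agent.X90.DC.fpx]
  | cons u w ih =>
    rw [constantPart, Pool.Agent.X90.DC.fpx, ih]

theorem adm_iff : ∀ u, Admissible u ↔ (u = [] ∨ Pool.Agent.X90.DB.Ad u) := by
  intro u
  cases u with
  | nil => exact ⟨fun _ => Or.inl rfl, fun _ => trivial⟩
  | cons a l => exact ⟨fun h => Or.inr h, fun h => h.resolve_left (List.cons_ne_nil _ _)⟩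

theorem ind_iff {k r : ℕ} (w : Fin r → List (Letter k)) : Independent w = NoRel w := by
  funext B s
  rw [Independent, mzv_fun]
  rfl

theorem hoffman_front : FrontSet Hoffman :=
  ⟨fun _ ha => absurd ha List.not_mem_nil, fun q hq => (adm_iff q).2 (Pool.Agent.U553.HY.h23_ad q hq),
    Pool.Agent.U553.HY.h23_cl⟩

theorem part2 (Q : Set (List ℕ)) (hQ : FrontSet Q) : List.TFAE [
    ∀ n, LinearIndependent ℚ fun q : {q : List ℕ // q ∈ Q ∧ q.sum = n} => mzv q.1,
    ∀ (k r : ℕ) (w : Fin r → List (Letter k)), Function.Injective w → SameWeight w →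
      (∀ i, AdmissiblePattern (w i) ∧ constantPart (w i) ∈ Q) → OffHyperplanes w (Independent w),
    ∀ (k r : ℕ) (w : Fin r → List (Letter k)), Function.Injective w → SameWeight w →
      (∀ i, AdmissiblePattern (w i) ∧ constantPart (w i) ∈ Q) → AlongDispersed w (Independent w),
    ∀ (r : ℕ) (w : Fin r → List (Letter 1)), Function.Injective w → SameWeight w →
      (∀ i, AdmissiblePattern (w i) ∧ constantPart (w i) ∈ Q ∧ HasVariable (w i)) →
      ∀ B : ℝ, ∃ s : Fin 1 → ℕ, 2 ≤ s 0 ∧ Independent w B s] := by
  simp only [ind_iff, constantPart_eq, mzv_fun]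
  exact coreW Q (fun q hq => (adm_iff q).1 (hQ.2.1 q hq)) hQ.2.2

/-- **Theorem.** (1) The words in `2`, `3` of each weight have linearly independent values if and only if all families of
different patterns of one weight whose constant parts are words in `2`, `3` are independent off few hyperplanes, if and only if
they are so along dispersed families, if and only if for all such families in one variable and all `B` there is one good
argument. (2) The same for other sets of constant parts. (3) Unconditional cases. -/
theorem result :
    -- (1) the words in `2`, `3`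
    List.TFAE [
      ∀ n, LinearIndependent ℚ fun q : {q : List ℕ // q ∈ Hoffman ∧ q.sum = n} => mzv q.1,
      ∀ (k r : ℕ) (w : Fin r → List (Letter k)), Function.Injective w → SameWeight w →
        (∀ i, AdmissiblePattern (w i) ∧ constantPart (w i) ∈ Hoffman) → OffHyperplanes w (Independent w),
      ∀ (k r : ℕ) (w : Fin r → List (Letter k)), Function.Injective w → SameWeight w →
        (∀ i, AdmissiblePattern (w i) ∧ constantPart (w i) ∈ Hoffman) → AlongDispersed w (Independent w),
      ∀ (r : ℕ) (w : Fin r → List (Letter 1)), Function.Injective w → SameWeight w →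
        (∀ i, AdmissiblePattern (w i) ∧ constantPart (w i) ∈ Hoffman ∧ HasVariable (w i)) →
        ∀ B : ℝ, ∃ s : Fin 1 → ℕ, 2 ≤ s 0 ∧ Independent w B s] ∧
    -- (2) other sets of constant parts
    (∀ Q : Set (List ℕ), FrontSet Q → List.TFAE [
      ∀ n, LinearIndependent ℚ fun q : {q : List ℕ // q ∈ Q ∧ q.sum = n} => mzv q.1,
      ∀ (k r : ℕ) (w : Fin r → List (Letter k)), Function.Injective w → SameWeight w →
        (∀ i, AdmissiblePattern (w i) ∧ constantPart (w i) ∈ Q) → OffHyperplanes w (Independent w),
      ∀ (k r : ℕ) (w : Fin r → List (Letter k)), Function.Injective w → SameWeight w →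
        (∀ i, AdmissiblePattern (w i) ∧ constantPart (w i) ∈ Q) → AlongDispersed w (Independent w),
      ∀ (r : ℕ) (w : Fin r → List (Letter 1)), Function.Injective w → SameWeight w →
        (∀ i, AdmissiblePattern (w i) ∧ constantPart (w i) ∈ Q ∧ HasVariable (w i)) →
        ∀ B : ℝ, ∃ s : Fin 1 → ℕ, 2 ≤ s 0 ∧ Independent w B s]) ∧
    -- unconditional cases
    (∀ (k r : ℕ) (w : Fin r → List (Letter k)), Function.Injective w → SameWeight w →
      (∀ i, AdmissiblePattern (w i) ∧
        ∃ n : ℕ, constantPart (w i) = List.replicate n 2 ∨ constantPart (w i) = List.replicate n 2 ++ [3]) →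
      OffHyperplanes w (Independent w)) ∧
    (∀ Q : Set (List ℕ), FrontSet Q → (∀ q ∈ Q, ∀ q' ∈ Q, q.sum = q'.sum → q = q') →
      ∀ (k r : ℕ) (w : Fin r → List (Letter k)), Function.Injective w → SameWeight w →
        (∀ i, AdmissiblePattern (w i) ∧ constantPart (w i) ∈ Q) → OffHyperplanes w (Independent w)) ∧
    -- polynomials
    (∀ (k : ℕ) (p : Fin k → Polynomial ℝ), (∀ b : Fin k → ℤ, b ≠ 0 → 0 < (∑ j, (b j : ℝ) • p j).natDegree) →
      Dispersed fun j n => (p j).eval (n : ℝ)) := by
  refine ⟨part2 _ hoffman_front, part2, ?_, fun Q hQ h1 => ?_, fun k p hp => Pool.Agent.U553.HY.dispersed_poly p hp⟩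
  · intro k r w hinj hwt hw
    rw [ind_iff]
    simp only [constantPart_eq] at hw
    exact off_hom w hinj hwt hw
  · refine ((part2 Q hQ).out 0 1).1 fun n => ?_
    rw [mzv_fun]
    exact Pool.Agent.U553.HY.li_one Q (fun q hq => (adm_iff q).1 (hQ.2.1 q hq)) h1 n

end Pool.Agent.Results.MP_301213_nt.PatternsWithHoffmanFronts
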