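import Pool.Agent.Results.MP_03df5c_nt.PredictableSequences
import Pool.Agent.U553.HY.Uncond

/-!
# MP_301213_nt: Hoffman elements over the ring generated by every sequence of Lyndon indices outside of predictable sets

There are numbers `N_0, N_1, …`, which do not depend on anything, and for every sequence `q_0, q_1, …` of indices, for
example all words in `2, 3` of a given weight, there are exceptional sets `E_j(w_0, …, w_(j-1))` of
indices, which only depend on the indices chosen before, such that at most `2 j` Lyndon indices with at most `j` arguments and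
first argument in `[M, j M]` belong to `E_j`, for all `M ≥ N_j`; there are sequences `w` of admissible Lyndon indices with
`w_j ∉ E_j(w_0, …, w_(j-1))` for `j ≥ 2`, and for ALL sequences `w` of admissible Lyndon indices with this property for `j ≥ j₀`
the following holds.

(1) All relations of degree at most `D` between the multiple zeta values of `q_0, …, q_(i-1)` and of the `w_a`,
`a ∈ {a_1 < … < a_k}`, `a_1 ≥ max(j₀, D, i)`, with integer coefficients of absolute value at most `a ^ (first argument of w_a)`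
for all these `a`, are trivial in the `ζ(w_a)`: they hold for all complex numbers in place of the `ζ(w_a)`.

(2) For all `i` the numbers `ζ(q_0), …, ζ(q_(i-1))` are linearly independent over `ℚ` if and only if
`∑ ζ(q_b) P_b(ζ(w_(a_1)), …, ζ(w_(a_k))) ≠ 0` for all these sequences, all `k`, all polynomials `P_0, …, P_(i-1)` with rational
coefficients, not all zero, and all `a_1 < … < a_k` with `a_1 ≥ max(j₀, l(P))`; here `l(P)` depends on `P` only. So Q1 for the
weight `n` (`q_0, …, q_(i-1)` are the words in `2, 3` of weight `n`) is equivalent to the independence of this family over the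
rings generated by the values at the tails of such sequences.

(3) For `q_b = (2m, …, 2m)` and for `(), (2), (3)` the condition is satisfied (transcendence of `π`; helper553).

The proof uses `MP_03df5c_nt.PredictableSequences` and the theorem `Pool.Agent.U553.LY.delLyn` of helper553 on Lyndon indices of one
size over arbitrary constants.
-/

set_option autoImplicit false

namespace Pool.Agent.Results.MP_301213_nt.PredictableSequences

open Pool.Agent.Results.MP_03df5c_nt.AlmostAllArguments (mzv mzv_fun Admissible)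
open Pool.Agent.Results.MP_03df5c_nt.PredictableSequences (IsLyndon first Few Avoids zc Ex few_ex free_of aeval_ofReal clear height)
open Pool.Agent.U534.FreeSeq (seq_gen)
open MvPolynomial

section proofs

/-- there are admissible Lyndon indices outside of the exceptional sets -/
theorem exists_out {N : ℕ → ℕ} {E : ∀ j, (Fin j → List ℕ) → Set (List ℕ)} (h : Few N E) (j : ℕ) (hj : 2 ≤ j)
    (τ : Fin j → List ℕ) : ∃ v, IsLyndon v ∧ Admissible v ∧ v ∉ E j τ := by
  classical
  by_contra hcon
  push Not at hcon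
  set M := N j + 2 * j + 2 with hM
  have h1 := h j τ M (by omega)
  have h2 : (fun s : ℕ => [s]) '' ((Finset.Icc M (j * M) : Finset ℕ) : Set ℕ) ⊆
      {w | w ∈ E j τ ∧ IsLyndon w ∧ Admissible w ∧ w.length ≤ j ∧ M ≤ first w ∧ first w ≤ j * M} := by
    rintro _ ⟨s, hs, rfl⟩
    rw [Finset.mem_coe, Finset.mem_Icc] at hs
    have hL : IsLyndon [s] := by
      refine ⟨by simp, fun u v huv hu hv => ?_⟩
      exfalso
      have h3 := congrArg List.length huv
      rw [List.length_append, List.length_singleton] at h3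
      have h4 := List.length_pos_iff.2 hu
      have h5 := List.length_pos_iff.2 hv
      omega
    have hA : Admissible [s] := ⟨by omega, by simp⟩
    refine ⟨hcon [s] hL hA, hL, hA, ?_, hs.1, hs.2⟩
    rw [List.length_singleton]
    omega
  have h3 := (Set.encard_le_encard h2).trans h1
  rw [(List.singleton_injective).encard_image, Set.encard_coe_eq_coe_finsetCard, Nat.card_Icc] at h3
  have h4 : j * M + 1 - M ≤ 2 * j := by exact_mod_cast h3
  have h5 : 2 * M ≤ j * M := Nat.mul_le_mul_right M hj
  omega

theorem exists_seq {N : ℕ → ℕ} {E : ∀ j, (Fin j → List ℕ) → Set (List ℕ)} (h : Few N E) : ∃ w, Avoids E 2 w := by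
  classical
  have h1 : ∀ (j : ℕ) (τ : Fin j → List ℕ), ∃ v, 2 ≤ j → IsLyndon v ∧ Admissible v ∧ v ∉ E j τ := by
    intro j τ
    by_cases hj : 2 ≤ j
    · obtain ⟨v, hv⟩ := exists_out h j hj τ
      exact ⟨v, fun _ => hv⟩
    · exact ⟨[], fun h => absurd h hj⟩
  choose g hg using h1
  let w : ℕ → List ℕ := WellFounded.fix Nat.lt_wfRel.wf (C := fun _ => List ℕ) fun j ih => g j fun a => ih a a.2
  have hw : ∀ j, w j = g j fun a => w a := fun j => WellFounded.fix_eq _ _ _
  refine ⟨w, fun j hj => ?_⟩
  rw [hw j]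
  exact hg j _ hj

theorem trivial_coeff {i k : ℕ} (c : Fin i → ℂ) (P : Fin i → MvPolynomial (Fin k) ℚ)
    (h : ∀ y : Fin k → ℂ, ∑ b, c b * aeval y (P b) = 0) (m : Fin k →₀ ℕ) : ∑ b, c b * (((P b).coeff m : ℚ) : ℂ) = 0 := by
  have h1 : ∑ b, C (c b) * map (algebraMap ℚ ℂ) (P b) = 0 := by
    refine MvPolynomial.funext fun y => ?_
    rw [map_zero, map_sum, ← h y]
    refine Finset.sum_congr rfl fun b _ => ?_
    rw [map_mul, eval_C, eval_map]
    rfl
  have h2 := congrArg (coeff m) h1
  rw [coeff_sum, coeff_zero] at h2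
  rw [← h2]
  refine Finset.sum_congr rfl fun b _ => ?_
  rw [coeff_C_mul, coeff_map]
  rfl

/-- the polynomial with the numbers `ζ(q_b)` as variables -/
noncomputable def lin {i k : ℕ} (P : Fin i → MvPolynomial (Fin k) ℚ) : MvPolynomial (Fin i ⊕ Fin k) ℚ :=
  ∑ b, X (Sum.inl b) * rename Sum.inr (P b)

theorem lin_eval {i k : ℕ} (P : Fin i → MvPolynomial (Fin k) ℚ) {B : Type} [CommRing B] [Algebra ℚ B] (c : Fin i → B)
    (y : Fin k → B) : aeval (Sum.elim c y) (lin P) = ∑ b, c b * aeval y (P b) := by
  rw [lin, map_sum]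
  refine Finset.sum_congr rfl fun b _ => ?_
  rw [map_mul, aeval_X, aeval_rename, Sum.elim_comp_inr, Sum.elim_inl]

end proofs

/-- **Main result.** -/
theorem result :
    (∃ (N : ℕ → ℕ) (l₀ : ∀ i k : ℕ, (Fin i → MvPolynomial (Fin k) ℚ) → ℕ), ∀ q : ℕ → List ℕ,
      ∃ E : ∀ j, (Fin j → List ℕ) → Set (List ℕ), Few N E ∧ (∃ w, Avoids E 2 w) ∧
      -- relations are trivial
      (∀ (j₀ : ℕ) (w : ℕ → List ℕ), Avoids E j₀ w →
        ∀ (D i k : ℕ) (a : Fin k → ℕ), StrictMono a → (∀ l, j₀ ≤ a l ∧ D ≤ a l ∧ i ≤ a l) →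
        ∀ G : MvPolynomial (Fin i ⊕ Fin k) ℤ, G.totalDegree ≤ D →
          (∀ l m, |((G.coeff m : ℤ) : ℝ)| ≤ (a l : ℝ) ^ first (w (a l))) →
          aeval (Sum.elim (fun b : Fin i => mzv (q b)) fun l => mzv (w (a l))) G = 0 →
            ∀ y : Fin k → ℂ, aeval (Sum.elim (fun b : Fin i => ((mzv (q b) : ℝ) : ℂ)) y) G = 0) ∧
      -- linear independence
      ∀ i : ℕ, LinearIndependent ℚ (fun b : Fin i => mzv (q b)) ↔
        ∀ (j₀ : ℕ) (w : ℕ → List ℕ), Avoids E j₀ w → ∀ (k : ℕ) (P : Fin i → MvPolynomial (Fin k) ℚ), P ≠ 0 →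
          ∀ a : Fin k → ℕ, StrictMono a → (∀ l, j₀ ≤ a l ∧ l₀ i k P ≤ a l) →
            ∑ b : Fin i, mzv (q b) * aeval (fun l => mzv (w (a l))) (P b) ≠ 0) ∧
    -- unconditional cases
    (∀ m, 1 ≤ m → LinearIndependent ℚ fun n : ℕ => mzv (List.replicate n (2 * m))) ∧
    LinearIndependent ℚ ![mzv [], mzv [2], mzv [3]] := by
  classical
  refine ⟨?_, fun m hm => ?_, ?_⟩
  · obtain ⟨N, hN⟩ := few_ex
    choose d Q hd hQ using fun (i k : ℕ) (P : Fin i → MvPolynomial (Fin k) ℚ) => clear (lin P)
    choose H hH using fun (i k : ℕ) (P : Fin i → MvPolynomial (Fin k) ℚ) => height (Q i k P)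
    refine ⟨N, fun i k P => (Q i k P).totalDegree + i + H i k P + 1, fun q => ?_⟩
    have hA : ∀ (j₀ : ℕ) (w : ℕ → List ℕ), Avoids (Ex fun b => zc (q b)) j₀ w →
        ∀ (D i k : ℕ) (a : Fin k → ℕ), StrictMono a → (∀ l, j₀ ≤ a l ∧ D ≤ a l ∧ i ≤ a l) →
        ∀ G : MvPolynomial (Fin i ⊕ Fin k) ℤ, G.totalDegree ≤ D →
          (∀ l m, |((G.coeff m : ℤ) : ℝ)| ≤ (a l : ℝ) ^ first (w (a l))) →
          aeval (Sum.elim (fun b : Fin i => mzv (q b)) fun l => mzv (w (a l))) G = 0 →
            ∀ y : Fin k → ℂ, aeval (Sum.elim (fun b : Fin i => ((mzv (q b) : ℝ) : ℂ)) y) G = 0 := by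
      intro j₀ w hw D i k a ha hal G hG hH h0
      exact seq_gen zc (fun b => zc (q b)) w (fun j => (j : ℝ) ^ first (w j)) j₀ (free_of hw) D i k a ha hal G hG hH (by
        have h2 := aeval_ofReal (Sum.elim (fun b : Fin i => mzv (q b)) fun l => mzv (w (a l))) G
        rw [h0, Complex.ofReal_zero] at h2
        rw [← h2]
        congr 2
        funext v
        rcases v with b | l <;> rfl)
    refine ⟨Ex fun b => zc (q b), hN _, exists_seq (hN _), hA, fun i => ⟨fun hli j₀ w hw k P hP a ha hal h0 => hP ?_, fun h => ?_⟩⟩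
    · have hal : ∀ l, j₀ ≤ a l ∧ (Q i k P).totalDegree + i + H i k P + 1 ≤ a l := hal
      have hev : ∀ (B : Type) [CommRing B] [Algebra ℚ B] (v : Fin i ⊕ Fin k → B),
          aeval v (Q i k P) = algebraMap ℚ B (d i k P : ℚ) * aeval v (lin P) := by
        intro B _ _ v
        rw [← aeval_map_algebraMap ℚ v (Q i k P), hQ, map_mul, aeval_C]
      have h1 := hA j₀ w hw (Q i k P).totalDegree i k a ha (fun l => by
        have := hal l
        exact ⟨this.1, by omega, by omega⟩) (Q i k P) le_rfl (fun l m => by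
          have h2 := (hal l).2
          have h3 : 1 ≤ first (w (a l)) := by
            have h4 := (hw (a l) (hal l).1).2.1
            revert h4
            cases w (a l) with
            | nil => intro h4; exact h4.elim
            | cons x v => intro h4; exact le_trans (by norm_num) h4.1
          have h5 : (1 : ℝ) ≤ (a l : ℝ) := by
            have : 1 ≤ a l := by omega
            exact_mod_cast this
          have h6 : (H i k P : ℝ) ≤ (a l : ℝ) := by
            have : H i k P ≤ a l := by omega
            exact_mod_cast this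
          calc |(((Q i k P).coeff m : ℤ) : ℝ)| ≤ H i k P := hH i k P m
            _ ≤ (a l : ℝ) := h6
            _ = (a l : ℝ) ^ 1 := (pow_one _).symm
            _ ≤ (a l : ℝ) ^ first (w (a l)) := pow_le_pow_right₀ h5 h3) (by rw [hev, lin_eval, h0, mul_zero])
      have hd' : (algebraMap ℚ ℂ (d i k P : ℚ)) ≠ 0 := by
        rw [map_ne_zero]
        exact_mod_cast hd i k P
      have h2 : ∀ y : Fin k → ℂ, ∑ b : Fin i, ((mzv (q b) : ℝ) : ℂ) * aeval y (P b) = 0 := by
        intro y
        have h3 := h1 y
        rw [hev, lin_eval] at h3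
        exact (mul_eq_zero.1 h3).resolve_left hd'
      funext b
      ext m
      have h3 := trivial_coeff (fun b : Fin i => ((mzv (q b) : ℝ) : ℂ)) P h2 m
      have h4 : ∑ b : Fin i, ((P b).coeff m) • mzv (q b) = 0 := by
        have h5 : ((∑ b : Fin i, ((P b).coeff m) • mzv (q b) : ℝ) : ℂ) = 0 := by
          rw [← h3]
          push_cast
          refine Finset.sum_congr rfl fun b _ => ?_
          rw [Rat.smul_def]
          push_cast
          ring
        exact_mod_cast h5
      have h6 := Fintype.linearIndependent_iff.1 hli (fun b => (P b).coeff m) h4 b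
      simpa using h6
    · rw [Fintype.linearIndependent_iff]
      intro g hg
      by_contra hcon
      push Not at hcon
      obtain ⟨b₀, hb₀⟩ := hcon
      obtain ⟨w, hw⟩ := exists_seq (hN fun b => zc (q b))
      refine h 2 w hw 0 (fun b => C (g b)) (fun h0 => hb₀ ?_) (fun l => l.elim0) (fun l => l.elim0) (fun l => l.elim0) ?_
      · have h1 := congrFun h0 b₀
        exact (C_eq_zero.1 h1)
      · rw [← hg]
        refine Finset.sum_congr rfl fun b _ => ?_
        rw [aeval_C, Rat.smul_def, mul_comm]
        rfl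
  · rw [mzv_fun]
    have h1 := Pool.Agent.U553.HY.li_even m hm
    exact h1.comp (fun n : ℕ => ⟨List.replicate n (2 * m), n, rfl⟩) fun n n' h => by
      have h2 := congrArg List.length (Subtype.ext_iff.1 h)
      simpa using h2
  · rw [mzv_fun]
    have h1 := Pool.Agent.U553.HY.li_23
    have h2 := h1.comp (![⟨[], Or.inl rfl⟩, ⟨[2], Or.inr (Or.inl rfl)⟩, ⟨[3], Or.inr (Or.inr rfl)⟩] :
      Fin 3 → {q : List ℕ // q = [] ∨ q = [2] ∨ q = [3]}) (by
        intro x y hxy
        have h3 := congrArg Subtype.val hxy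
        fin_cases x <;> fin_cases y <;> simp at h3 ⊢)
    convert h2 using 1
    funext x
    fin_cases x <;> rfl

end Pool.Agent.Results.MP_301213_nt.PredictableSequences
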